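import Pool.Agent.Lib.MP_1a91b9_ntM.F.Cls

/-!
# MQ, part F, file Ext5: a Galois extension of `K` which contains `F` and the coordinates of a point
-/

set_option autoImplicit false

namespace Pool.Agent.Lib.MP_1a91b9_ntM

open NumberField IntermediateField

noncomputable section

/-- A Galois extension of `k` containing `F`, a square root `s` of `c` and a square root of a
polynomial expression in `s`. -/
theorem exists_ext {k : Type} [Field k] [NumberField k] (F : Type) [Field F] [NumberField F]
    [Algebra k F] (c d : k) :
    ∃ (M : Type) (_ : Field M) (_ : NumberField M) (_ : Algebra k M) (_ : IsGalois k M)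
      (_ : F →ₐ[k] M) (s y : M), s ^ 2 = algebraMap k M c ∧
        y ^ 2 = (algebraMap k M d * s) ^ 3 - algebraMap k M d ^ 2 * (algebraMap k M d * s) := by
  obtain ⟨s₀, hs₀⟩ := IsAlgClosed.exists_pow_nat_eq (algebraMap k (AlgebraicClosure F) c)
    (n := 2) (by norm_num)
  obtain ⟨y₀, hy₀⟩ := IsAlgClosed.exists_pow_nat_eq
    ((algebraMap k (AlgebraicClosure F) d * s₀) ^ 3 - algebraMap k (AlgebraicClosure F) d ^ 2 *
      (algebraMap k (AlgebraicClosure F) d * s₀)) (n := 2) (by norm_num)
  have hfin : FiniteDimensional F (IntermediateField.adjoin F {s₀, y₀}) :=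
    IntermediateField.finiteDimensional_adjoin fun x _ => Algebra.IsIntegral.isIntegral x
  obtain ⟨L, hL⟩ : ∃ L, L = IntermediateField.adjoin F {s₀, y₀} := ⟨_, rfl⟩
  rw [← hL] at hfin
  have hs : s₀ ∈ L := by
    rw [hL]
    exact IntermediateField.subset_adjoin F _ (Set.mem_insert _ _)
  have hy : y₀ ∈ L := by
    rw [hL]
    exact IntermediateField.subset_adjoin F _ (Set.mem_insert_of_mem _ rfl)
  have h1 : FiniteDimensional k F := Module.Finite.of_restrictScalars_finite ℚ k F
  have h2 : FiniteDimensional k L := Module.Finite.trans F L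
  have halg : Algebra.IsAlgebraic k (AlgebraicClosure F) := Algebra.IsAlgebraic.trans k F _
  have hcl : IsAlgClosure k (AlgebraicClosure F) := ⟨inferInstance, halg⟩
  have hn : Normal k (AlgebraicClosure F) := IsAlgClosure.normal k _
  have hst : IsScalarTower k L (AlgebraicClosure F) := IsScalarTower.of_algebraMap_eq fun x => by
    rw [IsScalarTower.algebraMap_apply k F L, IsScalarTower.algebraMap_apply k F (AlgebraicClosure F)]
    rfl
  let M := normalClosure k L (AlgebraicClosure F)
  have hfM : FiniteDimensional k M := inferInstance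
  have hnM : Normal k M := normalClosure.normal k L (AlgebraicClosure F)
  have hgM : IsGalois k M := { }
  have hcM : CharZero M := charZero_of_injective_algebraMap (algebraMap k M).injective
  have hqM : FiniteDimensional ℚ M := Module.Finite.trans k M
  let j : L →ₐ[k] M := (normalClosure.algHomEquiv k L (AlgebraicClosure F)).symm
    (IsScalarTower.toAlgHom k L (AlgebraicClosure F))
  have hj : ∀ z : L, ((j z : M) : AlgebraicClosure F) = z := fun z => rfl
  refine ⟨M, inferInstance, { to_charZero := hcM, to_finiteDimensional := hqM }, inferInstance, hgM,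
    j.comp (IsScalarTower.toAlgHom k F L), j ⟨s₀, hs⟩, j ⟨y₀, hy⟩, ?_, ?_⟩
  · apply Subtype.ext
    exact hs₀
  · apply Subtype.ext
    exact hy₀

end

end Pool.Agent.Lib.MP_1a91b9_ntM
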