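import Pool.Agent.Lib.MP_1a91b9_ntM.F.Tor5
import Pool.Agent.Lib.MP_1a91b9_ntM.F.Ext5
import Pool.Agent.Lib.MP_1a91b9_nuX.PG.Defs
import Pool.Agent.Lib.MP_1a91b9_ntQ.C.Lam4
import Pool.Agent.Lib.MP_1a91b9_nuT.CF.Frob

/-!
# MQ, part F, file Bad5: the curve `y² = x³ - d² x` has bad reduction above two

`K = ℚ(i)`, `F / K` generated by square roots. A point `P` of order dividing `2 + i` has
`x(P)² = d² (1 + 2 i) / 5`; the field `K(x(P))` contains a square root of `1 + lam³`, hence it is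
ramified at `lam`: there is an element `τ` of the inertia with `τ x(P) = - x(P)`, so `τ² P = - P`,
and `τ²` fixes `F`.
-/

set_option autoImplicit false

namespace Pool.Agent.Lib.MP_1a91b9_ntM

open NumberField IsDedekindDomain WeierstrassCurve WithZero Pool.Agent.Lib.MP_1a91b9_nuT
  Pool.Agent.Lib.MP_1a91b9_ntQ Pool.Agent.Lib.MP_1a91b9_nuX.GM
open Pool.Agent.Lib.MP_1a91b9_nuX.PG (Gd)

noncomputable section

/-- The square of an automorphism fixes a field generated by square roots. -/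
theorem MQT.sq_fix {F : Type} [Field F] [NumberField F] [Algebra K4 F] {A : List (𝓞 K4)}
    (h : MQT F A) : ∀ (M : Type) [Field M] [Algebra K4 M] (j : F →ₐ[K4] M) (τ : M →ₐ[K4] M)
      (z : F), τ (τ (j z)) = j z := by
  induction h with
  | base F hb =>
    intro M _ _ j τ z
    obtain ⟨y, rfl⟩ := hb.2 z
    rw [AlgHom.commutes, AlgHom.commutes, AlgHom.commutes]
  | step F F' A a x hx hn hgen h ih =>
    intro M _ _ j τ z
    obtain ⟨b, c, rfl⟩ := hgen z
    have h1 := ih M (j.comp (IsScalarTower.toAlgHom K4 F F')) τ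
    have hb : τ (τ (j (algebraMap F F' b))) = j (algebraMap F F' b) := h1 b
    have hc : τ (τ (j (algebraMap F F' c))) = j (algebraMap F F' c) := h1 c
    have hx2 : (j x) ^ 2 = algebraMap K4 M (a : K4) := by
      rw [← map_pow, hx, AlgHom.commutes]
    have hx3 : τ (j x) ^ 2 = (j x) ^ 2 := by
      rw [← map_pow, hx2, AlgHom.commutes]
    have hxx : τ (τ (j x)) = j x := by
      rcases sq_eq_sq_iff_eq_or_eq_neg.1 hx3 with h2 | h2
      · rw [h2, h2]
      · rw [h2, map_neg, h2, neg_neg]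
    rw [map_add, map_mul, map_add, map_mul, map_add, map_mul, hb, hc, hxx]

section
variable {M : Type} [Field M] [NumberField M] [Algebra K4 M]

/-- the place of `K` below a place above two -/
theorem under_lam {w : HeightOneSpectrum (𝓞 M)} (hw : (2 : 𝓞 M) ∈ w.asIdeal) :
    (w.under (𝓞 K4)) = C.pv lam prime_lam := by
  have h2 : (2 : 𝓞 K4) ∈ (w.under (𝓞 K4)).asIdeal := by
    change algebraMap (𝓞 K4) (𝓞 M) 2 ∈ w.asIdeal
    rwa [map_ofNat]
  have hl : lam ∈ (w.under (𝓞 K4)).asIdeal := by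
    have h3 : lam ^ 2 ∈ (w.under (𝓞 K4)).asIdeal := by
      rw [lam_sq]
      exact Ideal.mul_mem_right _ _ h2
    exact (w.under (𝓞 K4)).isPrime.mem_of_pow_mem 2 h3
  apply HeightOneSpectrum.ext
  have hle : (C.pv lam prime_lam).asIdeal ≤ (w.under (𝓞 K4)).asIdeal := by
    change Ideal.span {lam} ≤ _
    rwa [Ideal.span_singleton_le_iff_mem]
  exact ((C.pv lam prime_lam).isMaximal.eq_of_le (w.under (𝓞 K4)).isPrime.ne_top hle).symm

omit [NumberField M] [Algebra K4 M] in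
theorem val_root {v : Valuation M ℤᵐ⁰} {I Λ r : M} (hI : I ^ 2 = -1) (hΛ : Λ = 1 + I)
    (hΛ0 : Λ ≠ 0) (h1 : v Λ < 1) (hr : r ^ 2 = 1 + Λ ^ 3) : v (r - 1) ^ 2 = v Λ ^ 3 := by
  have hl0 : v Λ ≠ 0 := (Valuation.ne_zero_iff _).2 hΛ0
  have hl2 : v Λ ^ 2 < v Λ := by
    rw [pow_two]
    exact mul_lt_of_lt_one_left (zero_lt_iff.2 hl0) h1
  have hvI : v I = 1 := by
    have h2 : v I ^ 4 = 1 := by
      rw [← map_pow, show I ^ 4 = 1 by linear_combination (I ^ 2 - 1) * hI, map_one]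
    rcases lt_trichotomy (v I) 1 with h | h | h
    · exact absurd h2 (pow_lt_one₀ zero_le h (by norm_num)).ne
    · exact h
    · exact absurd h2 (one_lt_pow₀ h (by norm_num)).ne'
  have h2 : v 2 = v Λ ^ 2 := by
    have e : (2 : M) = -I * Λ ^ 2 := by
      rw [hΛ]
      linear_combination (2 + I) * hI
    rw [e, map_mul, map_pow, Valuation.map_neg, hvI, one_mul]
  have hab : v (r - 1) * v (r + 1) = v Λ ^ 3 := by
    rw [← map_mul, ← map_pow]
    congr 1
    linear_combination hr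
  have e2 : (r + 1) - (r - 1) = 2 := by ring
  rcases lt_trichotomy (v (r - 1)) (v (r + 1)) with h | h | h
  · exfalso
    have h3 : v 2 = v (r + 1) := by
      rw [← e2, Valuation.map_sub_swap]
      exact Valuation.map_sub_eq_of_lt_right v h
    rw [← h3, h2, mul_comm, pow_succ (v Λ) 2] at hab
    have h4 := mul_left_cancel₀ (pow_ne_zero 2 hl0) hab
    rw [h4, ← h3, h2] at h
    exact lt_asymm h hl2
  · rw [pow_two]
    nth_rewrite 2 [h]
    exact hab
  · exfalso
    have h3 : v 2 = v (r - 1) := by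
      rw [← e2]
      exact Valuation.map_sub_eq_of_lt_right v h
    rw [← h3, h2, pow_succ (v Λ) 2] at hab
    have h4 := mul_left_cancel₀ (pow_ne_zero 2 hl0) hab
    rw [h4, ← h3, h2] at h
    exact lt_asymm h hl2

/-- **The square root of `1 + lam ^ 3` generates a ramified extension.** -/
theorem exists_tau [IsGalois K4 M] {w : HeightOneSpectrum (𝓞 M)} (hw : (2 : 𝓞 M) ∈ w.asIdeal)
    {r : M} (hr : r ^ 2 = 1 + algebraMap K4 M (lam : K4) ^ 3) :
    ∃ τ : Gal(M/K4), (∀ x : 𝓞 M, τ • x - x ∈ w.asIdeal) ∧ τ r ≠ r := by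
  by_contra hcon
  push Not at hcon
  obtain ⟨y, hy⟩ := val_inert (k := K4) (w := w) (x := r - 1) fun σ hσ => by
    rw [map_sub, map_one, hcon σ hσ]
  obtain ⟨e, he⟩ : ∃ e, e = w.asIdeal.ramificationIdx (𝓞 K4) := ⟨_, rfl⟩
  have hvl : (w.under (𝓞 K4)).valuation K4 (lam : K4) = exp (-1) := by
    rw [under_lam hw]
    exact C.nuL_lam
  have hle : w.valuation M (algebraMap K4 M (lam : K4)) = exp (-1) ^ e := by
    rw [val_base, hvl, he]
  have hI : (algebraMap K4 M ((iO : 𝓞 K4) : K4)) ^ 2 = -1 := by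
    rw [← map_pow, C.iK_sq', map_neg, map_one]
  have hΛ : algebraMap K4 M (lam : K4) = 1 + algebraMap K4 M ((iO : 𝓞 K4) : K4) := by
    rw [C.lam_coe, map_add, map_one]
  have hΛ0 : algebraMap K4 M (lam : K4) ≠ 0 := by
    rw [Ne, map_eq_zero]
    exact fun h0 => prime_lam.ne_zero (RingOfIntegers.coe_eq_zero_iff.1 h0)
  have hl1 : w.valuation M (algebraMap K4 M (lam : K4)) < 1 := by
    have h2 : lam ∈ (w.under (𝓞 K4)).asIdeal := by
      rw [under_lam hw]
      exact Ideal.mem_span_singleton_self _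
    have h3 : algebraMap (𝓞 K4) (𝓞 M) lam ∈ w.asIdeal := h2
    exact (val_lt_mem _).2 h3
  have h3 := val_root hI hΛ hΛ0 hl1 hr
  have hy0 : y ≠ 0 := by
    rintro rfl
    rw [map_zero, map_zero] at hy
    rw [← hy, zero_pow two_ne_zero] at h3
    exact pow_ne_zero 3 ((Valuation.ne_zero_iff _).2 hΛ0) h3.symm
  obtain ⟨n, hn⟩ : ∃ n : ℤ, (w.under (𝓞 K4)).valuation K4 y = exp n :=
    ⟨_, (exp_log ((Valuation.ne_zero_iff _).2 hy0)).symm⟩
  rw [← hy, val_base, hn, ← he, hle, ← exp_nsmul, ← exp_nsmul, ← exp_nsmul, ← exp_nsmul] at h3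
  have h4 := exp_injective h3
  simp only [nsmul_eq_mul] at h4
  push_cast at h4
  have h5 : (e : ℤ) * (2 * n + 3) = 0 := by linarith
  rcases mul_eq_zero.1 h5 with h6 | h6
  · rw [hle, show e = 0 by exact_mod_cast h6, pow_zero] at hl1
    exact lt_irrefl _ hl1
  · omega

omit [Algebra K4 M] in
theorem val_five {w : HeightOneSpectrum (𝓞 M)} (hw : (2 : 𝓞 M) ∈ w.asIdeal) :
    w.valuation M ((5 : ℕ) : M) = 1 := by
  have h2 : w.valuation M ((2 : 𝓞 M) : M) < 1 := (val_lt_mem _).2 hw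
  have e2 : ((2 : 𝓞 M) : M) = 2 := map_ofNat _ 2
  rw [e2] at h2
  have h4 : w.valuation M (4 : M) < 1 := by
    rw [show (4 : M) = 2 * 2 by norm_num, map_mul]
    exact mul_lt_one_of_lt_of_le h2 h2.le
  have e : ((5 : ℕ) : M) = 1 + 4 := by norm_num
  rw [e, Valuation.map_add_eq_of_lt_left _ (by rwa [map_one]), map_one]

end

/-- **Bad reduction above two.** -/
theorem bad_lam {F : Type} [Field F] [NumberField F] [Algebra K4 F] {A : List (𝓞 K4)}
    (h : MQT F A) {d : 𝓞 K4} (hd : d ≠ 0) {w : HeightOneSpectrum (𝓞 F)}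
    (hw : (2 : 𝓞 F) ∈ w.asIdeal) :
    ¬ Gd (⟨0, 0, 0, -(algebraMap K4 F (d : K4)) ^ 2, 0⟩ : WeierstrassCurve F) w := by
  classical
  rintro ⟨C₀, hC⟩
  obtain ⟨M, _, _, _, _, j, s, y, hs, hy⟩ := exists_ext F ((1 + 2 * ((iO : 𝓞 K4) : K4)) / 5)
    (d : K4)
  let _ : Algebra F M := j.toRingHom.toAlgebra
  have hjal : ∀ z : F, algebraMap F M z = j z := fun _ => rfl
  have hst : IsScalarTower K4 F M := IsScalarTower.of_algebraMap_eq fun x => by
    rw [hjal, AlgHom.commutes]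
  have hgF : IsGalois F M := IsGalois.tower_top_of_isGalois K4 F M
  obtain ⟨w', rfl⟩ := CF.exists_over (k := F) (N := M) w
  have hw' : (2 : 𝓞 M) ∈ w'.asIdeal := by
    have h2 : algebraMap (𝓞 F) (𝓞 M) 2 ∈ w'.asIdeal := hw
    rwa [map_ofNat] at h2
  obtain ⟨I, eI⟩ : ∃ I, I = algebraMap K4 M ((iO : 𝓞 K4) : K4) := ⟨_, rfl⟩
  obtain ⟨D, eD⟩ : ∃ D, D = algebraMap K4 M (d : K4) := ⟨_, rfl⟩
  have hI : I ^ 2 = -1 := by
    rw [eI, ← map_pow, C.iK_sq', map_neg, map_one]
  have hD0 : D ≠ 0 := by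
    rw [eD, Ne, map_eq_zero]
    exact fun h0 => hd (RingOfIntegers.coe_eq_zero_iff.1 h0)
  have hs' : s ^ 2 = (1 + 2 * I) / 5 := by
    rw [hs, eI, map_div₀, map_add, map_mul, map_one, map_ofNat, map_ofNat]
  rw [← eD] at hy
  -- the element of the inertia
  have hr : (I * s * (1 - 2 * I)) ^ 2 = 1 + algebraMap K4 M (lam : K4) ^ 3 := by
    have h5 : (5 : M) ≠ 0 := by norm_num
    rw [C.lam_coe, map_add, map_one, ← eI, mul_pow, mul_pow, hs', hI]
    field_simp
    linear_combination (-11 - 13 * I) * hI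
  obtain ⟨τ, hτ, hτr⟩ := exists_tau hw' hr
  have hτI : τ I = I := by rw [eI, AlgEquiv.commutes]
  have hτD : τ D = D := by rw [eD, AlgEquiv.commutes]
  have hτs : τ s = -s := by
    have h1 : (τ s) ^ 2 = s ^ 2 := by
      rw [← map_pow, hs, AlgEquiv.commutes]
    rcases sq_eq_sq_iff_eq_or_eq_neg.1 h1 with h2 | h2
    · exfalso
      apply hτr
      rw [map_mul, map_mul, map_sub, map_mul, map_one, map_ofNat, hτI, h2]
    · exact h2
  have hτy : τ (τ y) = -y := by
    have h1 : (τ y) ^ 2 = (I * y) ^ 2 := by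
      rw [← map_pow, hy, map_sub, map_pow, map_mul, map_mul, map_pow, hτs, hτD, map_mul, hτD, hτs]
      linear_combination hy - y ^ 2 * hI
    rcases sq_eq_sq_iff_eq_or_eq_neg.1 h1 with h2 | h2
    · rw [h2, map_mul, hτI, h2]
      linear_combination y * hI
    · rw [h2, map_neg, map_mul, hτI, h2]
      linear_combination y * hI
  -- the point
  obtain ⟨W, hWd⟩ : ∃ W : WeierstrassCurve F,
    W = ⟨0, 0, 0, -(algebraMap K4 F (d : K4)) ^ 2, 0⟩ := ⟨_, rfl⟩
  rw [← hWd] at hC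
  have hWM : W.map (algebraMap F M) = ⟨0, 0, 0, -D ^ 2, 0⟩ := by
    rw [hWd]
    refine WeierstrassCurve.ext ?_ ?_ ?_ ?_ ?_
    · exact map_zero _
    · exact map_zero _
    · exact map_zero _
    · change algebraMap F M (-(algebraMap K4 F (d : K4)) ^ 2) = -D ^ 2
      rw [map_neg, map_pow, ← IsScalarTower.algebraMap_apply K4 F M, eD]
    · exact map_zero _
  have hΔ : (W.map (algebraMap F M)).Δ ≠ 0 := by
    have e : (W.map (algebraMap F M)).Δ = 64 * D ^ 6 := by
      rw [hWM]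
      simp only [WeierstrassCurve.Δ, WeierstrassCurve.b₂, WeierstrassCurve.b₄, WeierstrassCurve.b₆,
        WeierstrassCurve.b₈]
      ring
    rw [e]
    exact mul_ne_zero (by norm_num) (pow_ne_zero 6 hD0)
  obtain ⟨P, hP0, hPx, hPy⟩ := exists_pt hΔ (x := D * s) (y := y) (by
    rw [hWM]
    linear_combination hy)
  have hPx' : 5 * px P ^ 2 = D ^ 2 * (1 + 2 * I) := by
    rw [hPx, mul_pow, hs']
    ring
  have h5 := five_smul hI hD0 hWM hP0 hPx'
  have hy0 : y ≠ 0 := by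
    intro h0
    refine (dbl5 hI hD0 hWM hP0 hPx').1 ((dbl_zero hP0).2 ?_)
    have ha1 : (W.map (algebraMap F M)).a₁ = 0 := by rw [hWM]
    have ha3 : (W.map (algebraMap F M)).a₃ = 0 := by rw [hWM]
    rw [pe, hPy, h0, ha1, ha3]
    ring
  -- the automorphism over `F`
  let σ : Gal(M/F) := AlgEquiv.ofRingEquiv (f := (τ.trans τ).toRingEquiv) fun z =>
    h.sq_fix M j (τ : M →ₐ[K4] M) z
  have hσv : ∀ z : M, σ z = τ (τ z) := fun _ => rfl
  have hσ : ∀ x : 𝓞 M, σ • x - x ∈ w'.asIdeal := by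
    intro x
    have e : σ • x = τ • τ • x := RingOfIntegers.ext rfl
    have h1 := w'.asIdeal.add_mem (hτ (τ • x)) (hτ x)
    rw [e]
    rwa [sub_add_sub_cancel] at h1
  have h6 := nos hC hσ (val_five hw') h5
  have h7 : σ y = y := by
    have := congrArg py h6
    rwa [py_gact, hPy] at this
  rw [hσv, hτy] at h7
  have h8 : (2 : M) * y = 0 := by linear_combination -h7
  rcases mul_eq_zero.1 h8 with h9 | h9
  · exact two_ne_zero h9
  · exact hy0 h9

end

end Pool.Agent.Lib.MP_1a91b9_ntM
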