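import Pool.Agent.Lib.MP_1a91b9_ntQ.Base

/-!
# MQ, part F, file Cls: the multiquadratic extensions of `ℚ(i)`

`MQT F A` : `F` is obtained from `K = ℚ(i)` by adjoining successively square roots of elements of
`𝓞 K`; the list `A` consists of the products of the subsets of these elements.
`MQT.exists_of` : every finite extension generated by square roots of elements of `K` is of this kind;
`MQT.ok` : the length of `A` is the degree, the elements of `A` are not zero, they are squares in `F`
and the products of two of them are not squares in `K`.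
-/

set_option autoImplicit false

namespace Pool.Agent.Lib.MP_1a91b9_ntM

open NumberField Pool.Agent.Lib.MP_1a91b9_ntQ

noncomputable section

/-- Towers of quadratic extensions above `ℚ(i)` generated by square roots of elements of `ℤ[i]`. -/
inductive MQT : ∀ (F : Type) [Field F] [NumberField F] [Algebra K4 F], List (𝓞 K4) → Prop
  | base (F : Type) [Field F] [NumberField F] [Algebra K4 F]
      (h : Function.Bijective (algebraMap K4 F)) : MQT F [1]
  | step (F F' : Type) [Field F] [NumberField F] [Algebra K4 F] [Field F'] [NumberField F']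
      [Algebra K4 F'] [Algebra F F'] [IsScalarTower K4 F F'] (A : List (𝓞 K4)) (a : 𝓞 K4)
      (x : F') (hx : x ^ 2 = algebraMap K4 F' a) (hn : ¬ ∃ y : F, algebraMap F F' y = x)
      (hgen : ∀ z : F', ∃ b c : F, z = algebraMap F F' b + algebraMap F F' c * x)
      (h : MQT F A) : MQT F' (A ++ A.map (a * ·))

/-- The class does not depend on the field up to isomorphism. -/
theorem MQT.congr {F : Type} [Field F] [NumberField F] [Algebra K4 F] {A : List (𝓞 K4)}
    (h : MQT F A) {F' : Type} [Field F'] [NumberField F'] [Algebra K4 F'] (e : F ≃ₐ[K4] F') :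
    MQT F' A := by
  cases h with
  | base _ hb =>
    refine MQT.base F' ?_
    have h1 : (algebraMap K4 F' : K4 → F') = e ∘ algebraMap K4 F :=
      funext fun y => (e.commutes y).symm
    rw [h1]
    exact e.bijective.comp hb
  | step F₀ _ A₀ a x hx hn hgen h0 =>
    let _ : Algebra F₀ F' := ((e : F →+* F').comp (algebraMap F₀ F)).toAlgebra
    have hal : ∀ y : F₀, algebraMap F₀ F' y = e (algebraMap F₀ F y) := fun _ => rfl
    have : IsScalarTower K4 F₀ F' := IsScalarTower.of_algebraMap_eq fun y => by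
      rw [hal, ← IsScalarTower.algebraMap_apply, e.commutes]
    refine MQT.step F₀ F' A₀ a (e x) ?_ ?_ ?_ h0
    · rw [← map_pow, hx, e.commutes]
    · rintro ⟨y, hy⟩
      exact hn ⟨y, e.injective hy⟩
    · intro z
      obtain ⟨b, c, hbc⟩ := hgen (e.symm z)
      refine ⟨b, c, ?_⟩
      rw [hal, hal, ← map_mul, ← map_add, ← hbc, e.apply_symm_apply]

/-- The properties of the list `A`. -/
structure MQok (F : Type) [Field F] [Algebra K4 F] (A : List (𝓞 K4)) : Prop where
  len : A.length = Module.finrank K4 F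
  ne : ∀ a ∈ A, a ≠ 0
  sq : ∀ a ∈ A, ∃ y : F, y ^ 2 = algebraMap K4 F a
  pw : A.Pairwise fun a b : 𝓞 K4 => ¬ ∃ y : K4, y ^ 2 = (a : K4) * b

theorem finrank_two' {N N' : Type*} [Field N] [Field N'] [Algebra N N'] {x : N'}
    (hn : ¬ ∃ y : N, algebraMap N N' y = x)
    (hgen : ∀ z : N', ∃ b c : N, z = algebraMap N N' b + algebraMap N N' c * x) :
    Module.finrank N N' = 2 := by
  have hli : LinearIndependent N ![(1 : N'), x] := by
    rw [LinearIndependent.pair_iff]
    intro s t h
    rw [Algebra.smul_def, Algebra.smul_def, mul_one] at h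
    by_cases ht : t = 0
    · rw [ht, map_zero, zero_mul, add_zero] at h
      exact ⟨(map_eq_zero _).mp h, ht⟩
    · exfalso
      apply hn
      have ht' : algebraMap N N' t ≠ 0 := fun h0 => ht ((map_eq_zero _).mp h0)
      refine ⟨-s / t, ?_⟩
      rw [map_div₀, map_neg, div_eq_iff ht']
      linear_combination -h
  have hsp : ⊤ ≤ Submodule.span N (Set.range ![(1 : N'), x]) := by
    intro z _
    obtain ⟨a, b, hz⟩ := hgen z
    rw [hz, Matrix.range_cons, Matrix.range_cons, Matrix.range_empty, Set.union_empty,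
      Set.singleton_union, Submodule.mem_span_pair]
    exact ⟨a, b, by rw [Algebra.smul_def, Algebra.smul_def, mul_one]⟩
  have hb := Module.finrank_eq_card_basis (Module.Basis.mk hli hsp)
  rw [hb, Fintype.card_fin]

theorem MQT.ok {F : Type} [Field F] [NumberField F] [Algebra K4 F] {A : List (𝓞 K4)}
    (h : MQT F A) : MQok F A := by
  induction h with
  | base F hb =>
    refine ⟨?_, ?_, ?_, List.pairwise_singleton _ _⟩
    · have e : K4 ≃ₗ[K4] F := LinearEquiv.ofBijective (Algebra.linearMap K4 F) hb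
      rw [List.length_singleton, ← e.finrank_eq, Module.finrank_self]
    · intro a ha
      rw [List.mem_singleton] at ha
      subst ha
      exact one_ne_zero
    · intro a ha
      rw [List.mem_singleton] at ha
      subst ha
      exact ⟨1, by rw [one_pow]; exact (map_one (algebraMap K4 F)).symm⟩
  | step F F' A a x hx hn hgen h0 ih =>
    have ha : a ≠ 0 := by
      rintro rfl
      have h1 : x ^ 2 = 0 := hx.trans (map_zero (algebraMap K4 F'))
      exact hn ⟨0, by rw [map_zero, (pow_eq_zero_iff two_ne_zero).1 h1]⟩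
    have haK : (a : K4) ≠ 0 := by exact_mod_cast ha
    have hal : ∀ y : K4, algebraMap K4 F' y = algebraMap F F' (algebraMap K4 F y) :=
      fun y => IsScalarTower.algebraMap_apply K4 F F' y
    have hsq : ∀ b ∈ A, ∀ c ∈ A, ¬ ∃ y : K4, y ^ 2 = (b : K4) * ((a * c : 𝓞 K4) : K4) := by
      rintro b hb c hc ⟨y, hy⟩
      obtain ⟨β, hβ⟩ := ih.sq b hb
      obtain ⟨γ, hγ⟩ := ih.sq c hc
      have hbK : (b : K4) ≠ 0 := by exact_mod_cast ih.ne b hb
      have hcK : (c : K4) ≠ 0 := by exact_mod_cast ih.ne c hc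
      have hβ0 : β ≠ 0 := by
        rintro rfl
        rw [zero_pow two_ne_zero] at hβ
        exact hbK ((map_eq_zero _).1 hβ.symm)
      have hγ0 : γ ≠ 0 := by
        rintro rfl
        rw [zero_pow two_ne_zero] at hγ
        exact hcK ((map_eq_zero _).1 hγ.symm)
      have h1 : (algebraMap F F' (algebraMap K4 F y / (β * γ))) ^ 2 = x ^ 2 := by
        rw [hx, hal, ← map_pow]
        congr 1
        have e1 : ((a * c : 𝓞 K4) : K4) = a * c := by push_cast; rfl
        rw [div_pow, mul_pow, hβ, hγ, ← map_pow, hy, e1, map_mul, map_mul,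
          div_eq_iff (mul_ne_zero ((map_ne_zero _).2 hbK) ((map_ne_zero _).2 hcK))]
        ring
      rcases sq_eq_sq_iff_eq_or_eq_neg.1 h1 with h2 | h2
      · exact hn ⟨_, h2⟩
      · exact hn ⟨-(algebraMap K4 F y / (β * γ)), by rw [map_neg, h2, neg_neg]⟩
    refine ⟨?_, ?_, ?_, ?_⟩
    · rw [List.length_append, List.length_map, ih.len, ← Module.finrank_mul_finrank K4 F F',
        finrank_two' hn hgen]
      ring
    · intro b hb
      rcases List.mem_append.1 hb with h1 | h1
      · exact ih.ne b h1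
      · obtain ⟨c, hc, rfl⟩ := List.mem_map.1 h1
        exact mul_ne_zero ha (ih.ne c hc)
    · intro b hb
      rcases List.mem_append.1 hb with h1 | h1
      · obtain ⟨y, hy⟩ := ih.sq b h1
        exact ⟨algebraMap F F' y, by rw [← map_pow, hy, hal]⟩
      · obtain ⟨c, hc, rfl⟩ := List.mem_map.1 h1
        obtain ⟨y, hy⟩ := ih.sq c hc
        refine ⟨x * algebraMap F F' y, ?_⟩
        rw [mul_pow, hx, ← map_pow, hy, ← hal, ← map_mul]
        rfl
    · rw [List.pairwise_append]
      refine ⟨ih.pw, ?_, ?_⟩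
      · rw [List.pairwise_map]
        refine ih.pw.imp ?_
        rintro b c h1 ⟨y, hy⟩
        apply h1
        refine ⟨y / a, ?_⟩
        rw [div_pow, hy, div_eq_iff (pow_ne_zero 2 haK)]
        push_cast
        ring
      · intro b hb c' hc'
        obtain ⟨c, hc, rfl⟩ := List.mem_map.1 hc'
        exact hsq b hb c hc

/-- An element of `𝓞 K` and a square root of it. -/
theorem exists_int {F : Type} [Field F] [Algebra K4 F] {x : F} {c : K4}
    (hx : x ^ 2 = algebraMap K4 F c) : ∃ (b : 𝓞 K4) (a : 𝓞 K4), b ≠ 0 ∧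
      (algebraMap K4 F b * x) ^ 2 = algebraMap K4 F a := by
  obtain ⟨⟨b, hb⟩, a, ha⟩ := IsLocalization.exists_integer_multiple (nonZeroDivisors (𝓞 K4)) c
  refine ⟨b, b * a, nonZeroDivisors.ne_zero hb, ?_⟩
  have h1 : (a : K4) = (b : K4) * c := by
    rw [Algebra.smul_def] at ha
    exact ha
  have e1 : ((b * a : 𝓞 K4) : K4) = b * a := by push_cast; rfl
  rw [mul_pow, hx, e1, h1, ← map_pow, ← map_mul]
  congr 1
  ring

/-- One more square root. -/
theorem step_inter {F : Type} [Field F] [NumberField F] [Algebra K4 F]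
    {L : IntermediateField K4 F} {A : List (𝓞 K4)} (h : MQT L A) {x : F} {a : 𝓞 K4}
    (hx : x ^ 2 = algebraMap K4 F a) (hxL : x ∉ L) :
    ∃ L' : IntermediateField K4 F, L ≤ L' ∧ x ∈ L' ∧ MQT L' (A ++ A.map (a * ·)) := by
  obtain ⟨M, hM⟩ : ∃ M : IntermediateField L F, M = IntermediateField.adjoin L {x} := ⟨_, rfl⟩
  obtain ⟨L', hL'⟩ : ∃ L' : IntermediateField K4 F, L' = M.restrictScalars K4 := ⟨_, rfl⟩
  have hmem : ∀ z : F, z ∈ L' ↔ z ∈ M := fun z => by
    rw [hL', IntermediateField.mem_restrictScalars]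
  have hLL : L ≤ L' := fun z hz => by
    rw [hmem]
    exact M.algebraMap_mem ⟨z, hz⟩
  have hxM : x ∈ M := by
    rw [hM]
    exact IntermediateField.subset_adjoin L {x} rfl
  refine ⟨L', hLL, (hmem x).2 hxM, ?_⟩
  let _ : Algebra L L' := (IntermediateField.inclusion hLL).toRingHom.toAlgebra
  have hal : ∀ y : L, ((algebraMap L L' y : L') : F) = y := fun _ => rfl
  have hst : IsScalarTower K4 L L' := IsScalarTower.of_algebraMap_eq fun y => rfl
  refine MQT.step L L' A a ⟨x, (hmem x).2 hxM⟩ (Subtype.ext hx) ?_ ?_ h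
  · rintro ⟨y, hy⟩
    have h1 := congrArg (fun z : L' => (z : F)) hy
    simp only [hal] at h1
    exact hxL (h1 ▸ y.2)
  · have hint : IsAlgebraic L x := Algebra.IsAlgebraic.isAlgebraic x
    have key : ∀ z ∈ M, ∃ b c : L, z = b + c * x := by
      intro z hz
      have hz1 : z ∈ Algebra.adjoin L {x} := by
        rw [← IntermediateField.adjoin_simple_toSubalgebra_of_isAlgebraic hint, ← hM]
        exact hz
      refine Algebra.adjoin_induction (p := fun z _ => ∃ b c : L, z = b + c * x)
        ?_ ?_ ?_ ?_ hz1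
      · rintro y hy
        rw [Set.mem_singleton_iff] at hy
        exact ⟨0, 1, by rw [hy]; simp⟩
      · intro y
        exact ⟨y, 0, by simp⟩
      · rintro y z _ _ ⟨b, c, rfl⟩ ⟨b', c', rfl⟩
        exact ⟨b + b', c + c', by push_cast; ring⟩
      · rintro y z _ _ ⟨b, c, rfl⟩ ⟨b', c', rfl⟩
        refine ⟨b * b' + c * c' * algebraMap K4 L a, b * c' + b' * c, ?_⟩
        push_cast
        rw [← hx]
        ring
    intro z
    obtain ⟨b, c, hbc⟩ := key z ((hmem z).1 z.2)
    exact ⟨b, c, Subtype.ext hbc⟩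

/-- **Every finite extension generated by square roots is in the class.** -/
theorem MQT.exists_of {F : Type} [Field F] [NumberField F] [Algebra K4 F]
    (hF : IntermediateField.adjoin K4 {x : F | ∃ c : K4, x ^ 2 = algebraMap K4 F c} = ⊤) :
    ∃ A : List (𝓞 K4), MQT F A := by
  obtain ⟨P, hP⟩ : ∃ P : IntermediateField K4 F → Prop, P = fun L : IntermediateField K4 F => ∃ A, MQT L A := ⟨_, rfl⟩
  have hbot : P ⊥ := by
    rw [hP]
    refine ⟨[1], MQT.base _ ?_⟩
    refine ⟨(algebraMap K4 (⊥ : IntermediateField K4 F)).injective, fun z => ?_⟩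
    obtain ⟨y, hy⟩ := IntermediateField.mem_bot.1 z.2
    exact ⟨y, Subtype.ext hy⟩
  obtain ⟨L, hL, hmax⟩ : ∃ L : IntermediateField K4 F, P L ∧ ∀ L' : IntermediateField K4 F,
      P L' → Module.finrank K4 L' ≤ Module.finrank K4 L := by
    by_contra hcon
    push Not at hcon
    have h1 : ∀ n : ℕ, ∃ L : IntermediateField K4 F, P L ∧ n ≤ Module.finrank K4 L := by
      intro n
      induction n with
      | zero => exact ⟨⊥, hbot, Nat.zero_le _⟩
      | succ n ih =>
        obtain ⟨L, h2, h3⟩ := ih
        obtain ⟨L', h4, h5⟩ := hcon L h2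
        exact ⟨L', h4, by omega⟩
    obtain ⟨L, _, h3⟩ := h1 (Module.finrank K4 F + 1)
    have h4 : Module.finrank K4 L ≤ Module.finrank K4 F := Submodule.finrank_le
      (Subalgebra.toSubmodule L.toSubalgebra)
    omega
  have htop : L = ⊤ := by
    rw [← top_le_iff, ← hF, IntermediateField.adjoin_le_iff]
    rintro x ⟨c, hx⟩
    by_contra hxL
    obtain ⟨b, a, hb, hba⟩ := exists_int hx
    have hbK : (algebraMap K4 F (b : K4)) ≠ 0 := (map_ne_zero _).2 (by exact_mod_cast hb)
    have hbL : algebraMap K4 F (b : K4) ∈ L := L.algebraMap_mem _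
    have hxL' : algebraMap K4 F b * x ∉ L := by
      intro h1
      apply hxL
      have h2 := L.mul_mem (L.inv_mem hbL) h1
      rwa [inv_mul_cancel_left₀ hbK] at h2
    rw [hP] at hL hmax
    obtain ⟨A, hA⟩ := hL
    obtain ⟨L', h1, h2, h3⟩ := step_inter hA hba hxL'
    have h4 := hmax L' ⟨_, h3⟩
    have h5 : L < L' := lt_of_le_of_ne h1 (by
      rintro rfl
      exact hxL' h2)
    have h6 := h3.ok.len
    have h7 := hA.ok.len
    rw [List.length_append, List.length_map, h7] at h6
    have h8 : 0 < Module.finrank K4 L := Module.finrank_pos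
    omega
  rw [hP] at hL
  obtain ⟨A, hA⟩ := hL
  subst htop
  exact ⟨A, hA.congr IntermediateField.topEquiv⟩

end

end Pool.Agent.Lib.MP_1a91b9_ntM
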