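import Pool.Agent.Lib.MP_1a91b9_nuX.GM.Nos

/-!
# MQ, part F, file Tor5: a point of order five of `y² = x³ - d² x` over a field with `i² = -1`

If `5 x² = d² (1 + 2 i)` then `2 • (x, y) = (-x, -i y)`, hence `5 • (x, y) = 0`.
-/

set_option autoImplicit false

namespace Pool.Agent.Lib.MP_1a91b9_ntM

open WeierstrassCurve Pool.Agent.Lib.MP_1a91b9_nuX.GM

noncomputable section

variable {M : Type*} [Field M] [DecidableEq M] [CharZero M]

omit [DecidableEq M] in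
theorem one_add_two_i_ne {i : M} (hi : i ^ 2 = -1) : (1 + 2 * i : M) ≠ 0 := by
  intro h
  have h1 : (5 : M) = 0 := by linear_combination (1 - 2 * i) * h + 4 * hi
  exact (by norm_num : (5 : M) ≠ 0) h1

/-- **The double of the point.** -/
theorem dbl5 {i d : M} (hi : i ^ 2 = -1) (hd : d ≠ 0) {W : WeierstrassCurve M}
    (hW : W = ⟨0, 0, 0, -d ^ 2, 0⟩) {P : W.toAffine.Point} (hP : P ≠ 0)
    (hx : 5 * px P ^ 2 = d ^ 2 * (1 + 2 * i)) :
    P + P ≠ 0 ∧ px (P + P) = -px P ∧ py (P + P) = -(i * py P) := by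
  subst hW
  have h5 : (5 : M) ≠ 0 := by norm_num
  have e := p_eq hP
  obtain ⟨x, ex⟩ : ∃ x, x = px P := ⟨_, rfl⟩
  obtain ⟨y, ey⟩ : ∃ y, y = py P := ⟨_, rfl⟩
  have hx0 : x ≠ 0 := by
    intro h
    rw [← ex, h] at hx
    have h1 : d ^ 2 * (1 + 2 * i) = 0 := by linear_combination -hx
    exact mul_ne_zero (pow_ne_zero 2 hd) (one_add_two_i_ne hi) h1
  have e1 : y ^ 2 = x ^ 3 - d ^ 2 * x := by
    rw [← ex, ← ey] at e
    linear_combination e
  rw [← ex] at hx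
  have hy0 : y ≠ 0 := by
    intro h
    rw [h] at e1
    have h1 : x * (x ^ 2 - d ^ 2) = 0 := by linear_combination -e1
    rcases mul_eq_zero.1 h1 with h2 | h2
    · exact hx0 h2
    · have h3 : d ^ 2 * (2 - i) = 0 := by linear_combination (1 / 2) * hx - (5 / 2) * h2
      rcases mul_eq_zero.1 h3 with h4 | h4
      · exact pow_ne_zero 2 hd h4
      · have h6 : (5 : M) = 0 := by linear_combination (2 + i) * h4 + hi
        exact h5 h6
  have epe : pe P = 2 * y := by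
    rw [pe, ← ex, ← ey]
    ring
  have hpe : pe P ≠ 0 := by
    rw [epe]
    exact mul_ne_zero two_ne_zero hy0
  obtain ⟨h0, h1, h2⟩ := p_dbl hP hpe
  obtain ⟨m, hm⟩ : ∃ m, m = (3 * x ^ 2 - d ^ 2) / (2 * y) := ⟨_, rfl⟩
  have em : (3 * px P ^ 2 + 2 * (⟨0, 0, 0, -d ^ 2, 0⟩ : WeierstrassCurve M).a₂ * px P +
      (⟨0, 0, 0, -d ^ 2, 0⟩ : WeierstrassCurve M).a₄ -
      (⟨0, 0, 0, -d ^ 2, 0⟩ : WeierstrassCurve M).a₁ * py P) / pe P = m := by
    rw [hm, epe, ← ex]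
    congr 1
    ring
  rw [em] at h1 h2
  have hm2 : m ^ 2 = x := by
    rw [hm, div_pow, div_eq_iff (pow_ne_zero 2 (mul_ne_zero two_ne_zero hy0))]
    have h3 : (3 * x ^ 2 - d ^ 2) ^ 2 = 4 * x * y ^ 2 := by
      rw [e1]
      linear_combination (x ^ 2 - d ^ 2 * (1 / 5 - 2 / 5 * i)) * hx + (d ^ 4 * (4 / 5)) * hi
    rw [h3]
    ring
  have hmx : 2 * m * x = y * (1 - i) := by
    have h3 : 2 * m * x = (3 * x ^ 2 - d ^ 2) * x / y := by
      rw [hm]
      field_simp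
    rw [h3, div_eq_iff hy0]
    have h4 : (3 * x ^ 2 - d ^ 2) * x = y ^ 2 * (1 - i) := by
      rw [e1]
      linear_combination ((2 + i) / 5 * x) * hx + (2 / 5 * d ^ 2 * x) * hi
    rw [h4]
    ring
  have h3 : px (P + P) = -x := by
    rw [h1, hm2, ← ex]
    ring
  refine ⟨h0, by rw [h3, ex], ?_⟩
  rw [h2, h3, ← ex, ← ey]
  linear_combination hmx

/-- **The point has order five.** -/
theorem five_smul {i d : M} (hi : i ^ 2 = -1) (hd : d ≠ 0) {W : WeierstrassCurve M}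
    (hW : W = ⟨0, 0, 0, -d ^ 2, 0⟩) {P : W.toAffine.Point} (hP : P ≠ 0)
    (hx : 5 * px P ^ 2 = d ^ 2 * (1 + 2 * i)) : 5 • P = 0 := by
  subst hW
  have hW : (⟨0, 0, 0, -d ^ 2, 0⟩ : WeierstrassCurve M) = ⟨0, 0, 0, -d ^ 2, 0⟩ := rfl
  obtain ⟨h0, h1, h2⟩ := dbl5 hi hd hW hP hx
  have hx' : 5 * px (P + P) ^ 2 = d ^ 2 * (1 + 2 * i) := by
    rw [h1]
    linear_combination hx
  obtain ⟨g0, g1, g2⟩ := dbl5 hi hd hW h0 hx'
  have h4 : (P + P) + (P + P) = -P := by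
    refine p_ext g0 (by rwa [Ne, neg_eq_zero]) ?_ ?_
    · rw [g1, h1, px_neg, neg_neg]
    · have e1 : py (-P) = -py P := by
        rw [py_neg hP]
        ring
      rw [g2, h2, e1]
      linear_combination (py P) * hi
  have e : 5 • P = ((P + P) + (P + P)) + P := by
    rw [show (5 : ℕ) = 4 + 1 from rfl, add_smul, one_smul, show (4 : ℕ) = 2 * 2 from rfl, mul_smul,
      two_smul, two_smul]
  rw [e, h4, neg_add_cancel]

end

end Pool.Agent.Lib.MP_1a91b9_ntM
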